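import Pool.Agent.H88.Hot2

open Pool.Agent.H88.Hot

namespace Pool.Agent.Results.MP_c0afcf_an.Counter

theorem result : ∃ G : QG, G.Good ∧ (G.M 0).Infinite ∧ G.M 0 ≠ G.Pts :=
  ⟨GA, GA_good, GA_inf, GA_ne⟩

end Pool.Agent.Results.MP_c0afcf_an.Counter
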